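import Pool.Agent.H27.Kob2

open MeasureTheory Set Filter Topology Metric
open scoped ENNReal
open Pool.Agent.H27.Kob

namespace Pool.Agent.Results.MP_8e2100_an.NoSubMean

lemma sub_ball {k : ℕ} {r t s T : ℝ} (t0 : 0 < t) (t1 : t < 1) (tr : t / (1 - t) < r)
    (s4 : 4 ≤ s) (hT : t * T = 2 * s) :
    ball (((3 * Real.exp (-T + s) / 4 : ℝ)) : ℂ) (Real.exp (-T + s) / 4) ×ˢ
      ball (0:ℂ) (t * (Real.exp (-T + s) / 2) ^ k) ⊆
    {w | w ∈ Om k ∧ kob (Om k) (Complex.exp (-T), 0) w < ENNReal.ofReal r} := by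
  rintro ⟨z, w⟩ ⟨hz, hw⟩
  set ρ := Real.exp (-T + s) with hρ
  have ρ0 : 0 < ρ := Real.exp_pos _
  simp only [mem_ball, dist_eq_norm, sub_zero] at hz hw
  have hc : ‖((3 * ρ / 4 : ℝ) : ℂ)‖ = 3 * ρ / 4 := by
    rw [Complex.norm_real, Real.norm_of_nonneg (by positivity)]
  have z1 : ‖z‖ < ρ := by linarith [norm_le_insert' z ((3 * ρ / 4 : ℝ) : ℂ)]
  have z2 : ρ / 2 < ‖z‖ := by
    have := norm_sub_norm_le ((3 * ρ / 4 : ℝ) : ℂ) z
    rw [norm_sub_rev] at this; linarith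
  have z0 : 0 < ‖z‖ := by linarith
  have T0 : 0 < T := by nlinarith
  have l1 : Real.log ‖z‖ ≤ -T + s := by
    rw [Real.log_le_iff_le_exp z0]; exact z1.le
  have l2 : -T + s - 1 ≤ Real.log ‖z‖ := by
    rw [Real.le_log_iff_exp_le z0, Real.exp_sub, div_le_iff₀ (Real.exp_pos _)]
    have := Real.add_one_le_exp (1:ℝ)
    nlinarith
  have ha : ‖Complex.log z + T‖ ≤ t * T := by
    refine (Complex.norm_le_abs_re_add_abs_im _).trans ?_
    simp only [Complex.add_re, Complex.log_re, Complex.ofReal_re, Complex.add_im, Complex.log_im,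
      Complex.ofReal_im, add_zero]
    have : |Real.log ‖z‖ + T| ≤ s := abs_le.2 ⟨by linarith, by linarith⟩
    linarith [Complex.abs_arg_le_pi z, Real.pi_le_four]
  have tn : ‖(t : ℂ)‖ = t := by rw [Complex.norm_real, Real.norm_of_nonneg t0.le]
  have tc : (t : ℂ) ≠ 0 := by exact_mod_cast t0.ne'
  have ha' : ‖(Complex.log z + T) / t‖ ≤ T := by
    rw [norm_div, tn, div_le_iff₀ t0]; linarith
  have hb : ‖w / z ^ k / t‖ ≤ 1 := by
    rw [norm_div, norm_div, tn, norm_pow, div_le_one t0, div_le_iff₀ (by positivity)]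
    exact hw.le.trans (by gcongr)
  let f : ℂ → ℂ × ℂ := fun ζ => (Complex.exp (-T + ζ * ((Complex.log z + T) / t)),
    Complex.exp (-T + ζ * ((Complex.log z + T) / t)) ^ k * (ζ * (w / z ^ k / t)))
  have hm : MapsTo f (ball 0 1) (Om k) := by
    intro ζ hζ
    rw [mem_ball_zero_iff] at hζ
    refine mem_Om ?_ ?_
    · have := Complex.re_le_norm (ζ * ((Complex.log z + T) / t))
      rw [norm_mul] at this
      have h2 : ‖ζ‖ * ‖(Complex.log z + T) / t‖ ≤ ‖ζ‖ * T := by gcongr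
      simp only [Complex.add_re, Complex.neg_re, Complex.ofReal_re]
      nlinarith
    · rw [norm_mul]
      exact lt_of_le_of_lt (mul_le_of_le_one_right (norm_nonneg _) hb) hζ
  have f0 : f 0 = (Complex.exp (-T), 0) := by simp [f]
  have ft : f t = (z, w) := by
    have hz0 : z ≠ 0 := norm_pos_iff.1 z0
    have : -(T : ℂ) + t * ((Complex.log z + T) / t) = Complex.log z := by field_simp; ring
    simp only [f, this, Complex.exp_log hz0]
    congr 1; field_simp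
  have := upper (Ω := Om k) (f := f) (by fun_prop) hm t0.le t1
  rw [f0, ft] at this
  refine ⟨ft ▸ hm (mem_ball_zero_iff.2 (by rwa [tn])), this.trans_lt ?_⟩
  exact (ENNReal.ofReal_lt_ofReal_iff ((div_pos t0 (by linarith)).trans tr)).2 tr

lemma int_le {k : ℕ} {p ρ : ℝ} (hp : 0 < p) (hpk : p ≤ k) (ρ0 : 0 < ρ) :
    ∫⁻ x : ℂ × ℂ, {x : ℂ × ℂ | ‖x.1‖ ≤ ρ ∧ ‖x.2‖ < ‖x.1‖ ^ k}.indicator
      (fun x => ‖x.1⁻¹‖ₑ ^ p) x ≤
      ENNReal.ofReal (ρ⁻¹ ^ p * ρ ^ (2 * k)) * NNReal.pi * (ENNReal.ofReal ρ ^ 2 * NNReal.pi) := by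
  have k0 : k ≠ 0 := by rintro rfl; simp at hpk; linarith
  refine (lintegral_prod_le _).trans ?_
  rw [← Complex.volume_closedBall 0 ρ, ← lintegral_indicator_const measurableSet_closedBall]
  refine lintegral_mono fun z => ?_
  by_cases hz : ‖z‖ ≤ ρ
  · rw [indicator_of_mem (mem_closedBall_zero_iff.2 hz)]
    have : ∀ w : ℂ, {x : ℂ × ℂ | ‖x.1‖ ≤ ρ ∧ ‖x.2‖ < ‖x.1‖ ^ k}.indicator
        (fun x => ‖x.1⁻¹‖ₑ ^ p) (z, w) = (ball (0:ℂ) (‖z‖ ^ k)).indicator
          (fun _ => ‖z⁻¹‖ₑ ^ p) w := by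
      intro w; simp [indicator, hz]
    simp only [this]
    rw [lintegral_indicator_const measurableSet_ball, Complex.volume_ball, ← mul_assoc]
    gcongr
    rw [← ofReal_norm_eq_enorm, ENNReal.ofReal_rpow_of_nonneg (norm_nonneg _) hp.le,
      ← ENNReal.ofReal_pow (by positivity), ← ENNReal.ofReal_mul (by positivity)]
    refine ENNReal.ofReal_le_ofReal ?_
    rcases (norm_nonneg z).eq_or_lt with h | h
    · rw [← h, zero_pow k0]; simp; positivity
    · have e : ∀ a : ℝ, 0 < a → a⁻¹ ^ p * a ^ (2 * k) = a ^ (2 * k - p : ℝ) := by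
        intro a a0
        rw [Real.rpow_sub a0, Real.inv_rpow a0.le, ← Real.rpow_natCast]
        push_cast; field_simp
      rw [norm_inv, ← pow_mul, mul_comm k 2, e _ h, e _ ρ0]
      exact Real.rpow_le_rpow h.le hz (by linarith)
  · have : ∀ w : ℂ, {x : ℂ × ℂ | ‖x.1‖ ≤ ρ ∧ ‖x.2‖ < ‖x.1‖ ^ k}.indicator
        (fun x => ‖x.1⁻¹‖ₑ ^ p) (z, w) = 0 := by
      intro w; simp [indicator, hz]
    simp [this]

theorem result (p : ℝ) (hp : 0 < p) :
    ∃ Ω : Set (ℂ × ℂ), IsOpen Ω ∧ IsConnected Ω ∧ Bornology.IsBounded Ω ∧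
      (∀ x : ℕ → ℂ × ℂ, (∀ n, x n ∈ Ω) →
        (∀ ε : ℝ≥0∞, 0 < ε → ∃ N, ∀ m ≥ N, ∀ n ≥ N, kob Ω (x m) (x n) < ε) →
        ∃ y ∈ Ω, Tendsto (fun n => kob Ω y (x n)) atTop (𝓝 0)) ∧
      ∃ f : ℂ × ℂ → ℂ, DifferentiableOn ℂ f Ω ∧ ∀ r : ℝ, 0 < r → ∀ C : ℝ, 0 < C → ∃ z ∈ Ω,
        ENNReal.ofReal C / volume {w | w ∈ Ω ∧ kob Ω z w < ENNReal.ofReal r} *
          ∫⁻ w in {w | w ∈ Ω ∧ kob Ω z w < ENNReal.ofReal r}, ‖f w‖ₑ ^ p < ‖f z‖ₑ ^ p := by
  set k := ⌈p⌉₊ with hk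
  have k0 : k ≠ 0 := (Nat.ceil_pos.2 hp).ne'
  have hpk : p ≤ k := Nat.le_ceil p
  refine ⟨Om k, open_Om, conn_Om k0, isBounded_iff_forall_norm_le.2 ⟨1, fun x hx => norm_le hx⟩,
    complete k0, fun x => x.1⁻¹, differentiableOn_fst.inv fun x hx => ne0 k0 hx,
    fun r r0 C C0 => ?_⟩
  set t := r / (2 + r) with ht
  have t0 : 0 < t := by positivity
  have t1 : t < 1 := by rw [ht, div_lt_one (by positivity)]; linarith
  have tr : t / (1 - t) < r := by
    rw [div_lt_iff₀ (by linarith), ht]; field_simp; linarith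
  set A := 16 * 4 ^ k / t ^ 2 + 1 with hA
  have A0 : 0 < A := by positivity
  set s := 4 + C * A / p with hs
  have s4 : 4 ≤ s := by rw [hs]; have : 0 < C * A / p := by positivity
                        linarith
  set T := 2 * s / t with hT
  have hT' : t * T = 2 * s := by rw [hT]; field_simp
  have T0 : 0 < T := by positivity
  have hsub := sub_ball (k := k) t0 t1 tr s4 hT'
  set ρ := Real.exp (-T + s) with hρ
  have ρ0 : 0 < ρ := Real.exp_pos _
  refine ⟨(Complex.exp (-T), 0),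
    by simpa using mem_Om (k := k) (g := -T) (b := 0) (by simpa) (by simp), ?_⟩
  set B := {w | w ∈ Om k ∧ kob (Om k) (Complex.exp (-T), 0) w < ENNReal.ofReal r} with hB
  have hV : ENNReal.ofReal (ρ / 4) ^ 2 * NNReal.pi *
      (ENNReal.ofReal (t * (ρ / 2) ^ k) ^ 2 * NNReal.pi) ≤ volume B := by
    refine le_trans (le_of_eq ?_) (measure_mono hsub)
    rw [Measure.volume_eq_prod, Measure.prod_prod, Complex.volume_ball, Complex.volume_ball]
  have h1 : ∫⁻ w in B, ‖w.1⁻¹‖ₑ ^ p ≤ ENNReal.ofReal (ρ⁻¹ ^ p * A) * volume B := by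
    have a1 : ∀ᵐ w ∂(volume.restrict B), w ∈ Om k :=
      (ae_restrict_mem open_Om.measurableSet).filter_mono
        (ae_mono (Measure.restrict_mono (fun w hw => hw.1) le_rfl))
    have a2 : ∀ᵐ w ∂(volume.restrict B), ‖w.1⁻¹‖ₑ ^ p ≤
        {x : ℂ × ℂ | ‖x.1‖ ≤ ρ ∧ ‖x.2‖ < ‖x.1‖ ^ k}.indicator (fun x => ‖x.1⁻¹‖ₑ ^ p) w
          + ENNReal.ofReal (ρ⁻¹ ^ p) := by
      filter_upwards [a1] with w hw
      by_cases h : ‖w.1‖ ≤ ρ
      · rw [indicator_of_mem (show w ∈ {x : ℂ × ℂ | ‖x.1‖ ≤ ρ ∧ ‖x.2‖ < ‖x.1‖ ^ k} from ⟨h, hw.2⟩)]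
        exact le_self_add
      · refine le_add_left ?_
        rw [← ofReal_norm_eq_enorm, ENNReal.ofReal_rpow_of_nonneg (norm_nonneg _) hp.le, norm_inv]
        refine ENNReal.ofReal_le_ofReal (Real.rpow_le_rpow (by positivity) ?_ hp.le)
        exact inv_anti₀ ρ0 (not_le.1 h).le
    refine (lintegral_mono_ae a2).trans ?_
    rw [lintegral_add_right _ measurable_const, setLIntegral_const, hA, mul_add, mul_one,
      ENNReal.ofReal_add (by positivity) (by positivity), add_mul]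
    gcongr
    refine (setLIntegral_le_lintegral _ _).trans ((int_le hp hpk ρ0).trans ?_)
    refine le_trans (le_of_eq ?_) (mul_le_mul_right hV _)
    rw [← ENNReal.ofReal_coe_nnreal]
    simp (disch := positivity) only [← ENNReal.ofReal_pow, ← ENNReal.ofReal_mul]
    congr 1
    have : (4:ℝ) ^ k = 2 ^ k * 2 ^ k := by rw [← mul_pow]; norm_num
    rw [this, div_pow ρ 2 k]
    clear_value t ρ
    field_simp; ring
  calc _ ≤ ENNReal.ofReal C / volume B * (ENNReal.ofReal (ρ⁻¹ ^ p * A) * volume B) := by gcongr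
    _ = ENNReal.ofReal C * ENNReal.ofReal (ρ⁻¹ ^ p * A) * (volume B * (volume B)⁻¹) := by
        rw [div_eq_mul_inv]; ring
    _ ≤ ENNReal.ofReal C * ENNReal.ofReal (ρ⁻¹ ^ p * A) * 1 := by
        gcongr; exact ENNReal.mul_inv_le_one _
    _ < _ := by
        rw [mul_one, ← ENNReal.ofReal_mul C0.le, ← ofReal_norm_eq_enorm,
          ENNReal.ofReal_rpow_of_nonneg (norm_nonneg _) hp.le,
          ENNReal.ofReal_lt_ofReal_iff (by
            refine Real.rpow_pos_of_pos (norm_pos_iff.2 (inv_ne_zero (Complex.exp_ne_zero _))) _)]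
        simp only [norm_inv, Complex.norm_exp, Complex.neg_re, Complex.ofReal_re, hρ,
          ← Real.exp_neg, ← Real.exp_mul]
        have e : Real.exp (- -T * p) = Real.exp (-(-T + s) * p) * Real.exp (s * p) := by
          rw [← Real.exp_add]; congr 1; ring
        have h2 : C * A < Real.exp (s * p) := by
          have := Real.add_one_le_exp (s * p)
          have : s * p = 4 * p + C * A := by rw [hs]; field_simp
          linarith
        rw [e]
        nlinarith [Real.exp_pos (-(-T + s) * p)]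

end Pool.Agent.Results.MP_8e2100_an.NoSubMean
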